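import Pool.Agent.Helper57.SS.Goals

/-!
# Project SS, packet FIN
-/

namespace Pool.Agent.Helper50.SS

open MeasureTheory ProbabilityTheory Filter Topology
open Pool.Agent.Helper57.SS

lemma close {μ : Measure Ci} {u v : Ci → ℝ} (hu : Integrable u μ) (hv : Integrable v μ)
    (U : Set Ci) : ∫ t in U, u t ∂μ ≤ ∫ t in U, v t ∂μ + ∫ t, |v t - u t| ∂μ := by
  have h1 : ∫ t in U, (u t - v t) ∂μ = ∫ t in U, u t ∂μ - ∫ t in U, v t ∂μ :=
    integral_sub hu.integrableOn hv.integrableOn
  have h2 : ∫ t in U, (u t - v t) ∂μ ≤ ∫ t in U, |v t - u t| ∂μ := by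
    refine integral_mono (hu.sub hv).integrableOn (hv.sub hu).abs.integrableOn ?_
    intro t
    change u t - v t ≤ |v t - u t|
    rw [abs_sub_comm]
    exact le_abs_self _
  have h3 : ∫ t in U, |v t - u t| ∂μ ≤ ∫ t, |v t - u t| ∂μ :=
    setIntegral_le_integral (hv.sub hu).abs (Eventually.of_forall fun t => abs_nonneg _)
  linarith

theorem gFIN : G_FIN := by
  intro hSHB σ1 σ2 σ3 _ _ _ F G δ s0 E hF hG hδ hτ hs0 hE hEf hσE hc hclose
  obtain ⟨hFm, hF0, hFi⟩ := hF
  obtain ⟨hGm, hG0, hGi⟩ := hG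
  obtain ⟨hI0, hJ0, hfib0⟩ := hs0
  set c := ∫ t, F (s0, t) ∂σ2 with hcdef
  have hcpos : 0 < c := hc
  have hFs : ∀ s, Measurable fun t => F (s, t) := fun s => hFm.comp measurable_prodMk_left
  have hGs : ∀ s, Measurable fun t => G (s, t) := fun s => hGm.comp measurable_prodMk_left
  set ν : Measure Ci := σ2.withDensity (fun t => ENNReal.ofReal (c⁻¹ * F (s0, t))) with hν
  have hνA : ∀ A : Set Ci, MeasurableSet A →
      ν A = ENNReal.ofReal (c⁻¹ * ∫ t in A, F (s0, t) ∂σ2) := by
    intro A hA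
    rw [hν, withDensity_apply _ hA, ← integral_const_mul, ofReal_integral_eq_lintegral_ofReal]
    · exact (hI0.const_mul c⁻¹).integrableOn
    · exact Eventually.of_forall fun t => mul_nonneg (inv_nonneg.2 hcpos.le) (hF0 _)
  have hreal : ∀ A : Set Ci, MeasurableSet A → ν.real A = c⁻¹ * ∫ t in A, F (s0, t) ∂σ2 := by
    intro A hA
    rw [Measure.real, hνA A hA, ENNReal.toReal_ofReal]
    exact mul_nonneg (inv_nonneg.2 hcpos.le) (integral_nonneg fun t => hF0 _)
  have hprob : IsProbabilityMeasure ν := by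
    constructor
    rw [hνA _ MeasurableSet.univ, setIntegral_univ, ← hcdef, inv_mul_cancel₀ hcpos.ne',
      ENNReal.ofReal_one]
  have hac : ν ≪ σ2 := withDensity_absolutelyContinuous _ _
  obtain ⟨-, -, -, -, -, hcl⟩ := hSHB ν (2 * δ) (2 * δ)
  set S := Sh ν (2 * δ) with hS
  have hSm : MeasurableSet S := hcl.measurableSet
  -- (i)
  have hi : ∀ s ∈ E, s - s0 ∈ S := by
    intro s hs
    obtain ⟨hIs, hJs, hfibs⟩ := hEf s hs
    obtain ⟨h1, h2⟩ := hclose s hs
    rw [hS]
    intro A hA
    have hm1 : MeasurableSet ((fun x : Ci => x + (s - s0)) ⁻¹' A) :=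
      (measurable_id.add_const (s - s0)) hA
    rw [hreal _ hm1, hreal _ hA]
    have hm2 : MeasurableSet ((fun y : Ci => y - s0) ⁻¹' A) :=
      (measurable_id.sub_const s0) hA
    have e1 : (fun x : Ci => x + (s - s0)) ⁻¹' A =
        {t | s + t ∈ (fun y : Ci => y - s0) ⁻¹' A} := by
      ext t
      simp only [Set.mem_preimage, Set.mem_ofPred_eq]
      rw [show t + (s - s0) = s + t - s0 by abel]
    have e2 : {t : Ci | s0 + t ∈ (fun y : Ci => y - s0) ⁻¹' A} = A := by
      ext t
      simp only [Set.mem_preimage, Set.mem_ofPred_eq]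
      rw [show s0 + t - s0 = t by abel]
    have a1 := close hI0 hIs ((fun x : Ci => x + (s - s0)) ⁻¹' A)
    have a2 := hfibs _ hm2
    have a3 := hfib0 _ hm2
    rw [e2] at a3
    rw [← e1] at a2
    have a4 := close hJs hJ0 ((fun y : Ci => y - s0) ⁻¹' A)
    have a5 : ∫ y, |G (s0, y) - G (s, y)| ∂σ3 = ∫ y, |G (s, y) - G (s0, y)| ∂σ3 := by
      congr 1
      funext y
      rw [abs_sub_comm]
    rw [a5] at a4
    have a6 : ∫ t in (fun x : Ci => x + (s - s0)) ⁻¹' A, F (s0, t) ∂σ2 ≤
        ∫ t in A, F (s0, t) ∂σ2 + c * (2 * δ) := by linarith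
    have a7 := mul_le_mul_of_nonneg_left a6 (inv_nonneg.2 hcpos.le)
    have a8 : c⁻¹ * (∫ t in A, F (s0, t) ∂σ2 + c * (2 * δ)) =
        c⁻¹ * ∫ t in A, F (s0, t) ∂σ2 + 2 * δ := by
      field_simp
    linarith
  -- (ii)
  have hmS2 : MeasurableSet {z : Ci × Ci | z.2 - z.1 ∈ S} :=
    (measurable_snd.sub measurable_fst) hSm
  have hBm : MeasurableSet {t : Ci | ν {x | x - t ∈ S} = 0} := by
    have := measurable_measure_prodMk_left (ν := ν) hmS2
    exact this (measurableSet_singleton 0)
  set B := {t : Ci | ν {x | x - t ∈ S} = 0} with hB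
  set N : Set (Ci × Ci) := {z | z.1 ∈ B ∧ z.2 - z.1 - s0 ∈ S ∧ 0 < G (s0, z.2)} with hN
  have hNm : MeasurableSet N := by
    refine (measurable_fst hBm).inter (MeasurableSet.inter ?_ ?_)
    · exact ((measurable_snd.sub measurable_fst).sub_const s0) hSm
    · exact measurableSet_lt measurable_const ((hGs s0).comp measurable_snd)
  have hN0 : (σ2.prod σ3) N = 0 := by
    rw [Measure.measure_prod_null hNm]
    refine Eventually.of_forall fun t => ?_
    change σ3 (Prod.mk t ⁻¹' N) = 0
    by_cases ht : t ∈ B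
    · have hmU : MeasurableSet {y : Ci | y - t - s0 ∈ S} :=
        ((measurable_id.sub_const t).sub_const s0) hSm
      have b1 := hfib0 _ hmU
      have b2 : {x : Ci | s0 + x ∈ {y : Ci | y - t - s0 ∈ S}} = {x | x - t ∈ S} := by
        ext x
        simp only [Set.mem_ofPred_eq]
        rw [show s0 + x - t - s0 = x - t by abel]
      rw [b2] at b1
      have hmV : MeasurableSet {x : Ci | x - t ∈ S} := (measurable_id.sub_const t) hSm
      have b3 : ∫ x in {x : Ci | x - t ∈ S}, F (s0, x) ∂σ2 = 0 := by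
        have b4 := hreal _ hmV
        have b5 : ν.real {x : Ci | x - t ∈ S} = 0 := by
          rw [Measure.real, show ν {x : Ci | x - t ∈ S} = 0 from ht, ENNReal.toReal_zero]
        rw [b5] at b4
        rcases mul_eq_zero.1 b4.symm with h | h
        · exact absurd (inv_eq_zero.1 h) hcpos.ne'
        · exact h
      rw [b3] at b1
      have b6 := (setIntegral_eq_zero_iff_of_nonneg_ae
        (Eventually.of_forall fun y => hG0 (s0, y)) hJ0.integrableOn).1 b1.symm
      have b7 : (σ3.restrict {y : Ci | y - t - s0 ∈ S}) {y | 0 < G (s0, y)} = 0 := by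
        have : {y : Ci | 0 < G (s0, y)} ⊆ {y | ¬ (G (s0, y) = (0 : Ci → ℝ) y)} := by
          intro y hy
          simp only [Set.mem_ofPred_eq, Pi.zero_apply] at hy ⊢
          exact hy.ne'
        exact measure_mono_null this b6
      rw [Measure.restrict_apply (measurableSet_lt measurable_const (hGs s0))] at b7
      refine measure_mono_null ?_ b7
      intro y hy
      exact ⟨hy.2.2, hy.2.1⟩
    · have : Prod.mk t ⁻¹' N = ∅ := by
        ext y
        simp only [Set.mem_preimage, Set.mem_empty_iff_false, iff_false]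
        exact fun h => ht h.1
      rw [this, measure_empty]
  have hτN := hτ N hNm hN0
  -- Fubini: almost every fibre
  have hPm : MeasurableSet {z : Ci × Ci | (z.2, z.1 + z.2) ∈ N} :=
    (measurable_snd.prodMk (measurable_fst.add measurable_snd)) hNm
  have hFub : ∀ᵐ s ∂σ1, ∫ t in {t | (t, s + t) ∈ N}, F (s, t) ∂σ2 = 0 := by
    have c1 : ∫ z, Set.indicator {z : Ci × Ci | (z.2, z.1 + z.2) ∈ N} F z ∂(σ1.prod σ2) = 0 := by
      rw [integral_indicator hPm]
      exact hτN
    have hInd : Integrable (Set.indicator {z : Ci × Ci | (z.2, z.1 + z.2) ∈ N} F)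
        (σ1.prod σ2) := hFi.indicator hPm
    rw [integral_prod _ hInd] at c1
    have c2 := (integral_eq_zero_iff_of_nonneg (fun s => integral_nonneg fun t =>
      Set.indicator_nonneg (fun z _ => hF0 z) _) hInd.integral_prod_left).1 c1
    filter_upwards [c2] with s hs
    have hmt : MeasurableSet {t : Ci | (t, s + t) ∈ N} :=
      (measurable_id.prodMk (measurable_id.const_add s)) hNm
    rw [← integral_indicator hmt]
    simpa [Set.indicator] using hs
  obtain ⟨s, hsE, hs⟩ : ∃ s ∈ E, ∫ t in {t | (t, s + t) ∈ N}, F (s, t) ∂σ2 = 0 := by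
    by_contra hcon
    push Not at hcon
    apply hσE
    exact measure_mono_null (fun s hs => hcon s hs) hFub
  obtain ⟨hIs, hJs, hfibs⟩ := hEf s hsE
  obtain ⟨h1, h2⟩ := hclose s hsE
  refine ⟨ν, hprob, hac, ?_⟩
  change ν.real B ≤ 2 * δ
  rw [hreal B hBm]
  have d1 := close hI0 hIs B
  have hmZ : MeasurableSet {y : Ci | G (s0, y) = 0} := (hGs s0) (measurableSet_singleton 0)
  have hmZt : MeasurableSet {t : Ci | s + t ∈ {y : Ci | G (s0, y) = 0}} :=
    (measurable_id.const_add s) hmZ
  have hmt : MeasurableSet {t : Ci | (t, s + t) ∈ N} :=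
    (measurable_id.prodMk (measurable_id.const_add s)) hNm
  have d2 : ∫ t in B, F (s, t) ∂σ2 ≤ ∫ t in {t | (t, s + t) ∈ N}, F (s, t) ∂σ2 +
      ∫ t in {t : Ci | s + t ∈ {y : Ci | G (s0, y) = 0}}, F (s, t) ∂σ2 := by
    rw [← integral_indicator hBm, ← integral_indicator hmt, ← integral_indicator hmZt,
      ← integral_add (hIs.indicator hmt) (hIs.indicator hmZt)]
    refine integral_mono (hIs.indicator hBm) ((hIs.indicator hmt).add (hIs.indicator hmZt)) ?_
    intro t
    change B.indicator (fun t => F (s, t)) t ≤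
      {t | (t, s + t) ∈ N}.indicator (fun t => F (s, t)) t +
        {t | s + t ∈ {y | G (s0, y) = 0}}.indicator (fun t => F (s, t)) t
    by_cases ht : t ∈ B
    · by_cases hg : G (s0, s + t) = 0
      · have : t ∈ {t : Ci | s + t ∈ {y : Ci | G (s0, y) = 0}} := hg
        rw [Set.indicator_of_mem ht, Set.indicator_of_mem this]
        have : 0 ≤ Set.indicator {t | (t, s + t) ∈ N} (fun t => F (s, t)) t :=
          Set.indicator_nonneg (fun z _ => hF0 _) _
        linarith
      · have hmem : t ∈ {t : Ci | (t, s + t) ∈ N} := by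
          refine ⟨ht, ?_, lt_of_le_of_ne (hG0 _) (Ne.symm hg)⟩
          change s + t - t - s0 ∈ S
          rw [show s + t - t - s0 = s - s0 by abel]
          exact hi s hsE
        rw [Set.indicator_of_mem ht, Set.indicator_of_mem hmem]
        have : 0 ≤ Set.indicator {t : Ci | s + t ∈ {y : Ci | G (s0, y) = 0}}
            (fun t => F (s, t)) t := Set.indicator_nonneg (fun z _ => hF0 _) _
        linarith
    · rw [Set.indicator_of_notMem ht]
      exact add_nonneg (Set.indicator_nonneg (fun z _ => hF0 _) _)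
        (Set.indicator_nonneg (fun z _ => hF0 _) _)
  have d3 := hfibs _ hmZ
  have d4 := close hJs hJ0 {y : Ci | G (s0, y) = 0}
  have d5 : ∫ y in {y : Ci | G (s0, y) = 0}, G (s0, y) ∂σ3 = 0 :=
    setIntegral_eq_zero_of_forall_eq_zero fun y hy => hy
  have d6 : ∫ y, |G (s0, y) - G (s, y)| ∂σ3 = ∫ y, |G (s, y) - G (s0, y)| ∂σ3 := by
    congr 1
    funext y
    rw [abs_sub_comm]
  rw [d6] at d4
  have d7 : ∫ t in B, F (s0, t) ∂σ2 ≤ c * (2 * δ) := by linarith
  have d8 := mul_le_mul_of_nonneg_left d7 (inv_nonneg.2 hcpos.le)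
  have d9 : c⁻¹ * (c * (2 * δ)) = 2 * δ := by
    field_simp
  linarith

end Pool.Agent.Helper50.SS
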